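import Pool.Agent.Y202.U.Stm

/-!
# Project Y202/U, job 1196: mixed differences (S_C0, S_C1)
-/

set_option autoImplicit false

namespace Pool.Agent.Y839.U

open Finset Pool.Agent.W788.NV Pool.Agent.Y202.U

section basics

variable {V : Type} [DecidableEq V] {q : ℕ}

lemma mix_ins_l {S T : Finset V} {a : V} (ha : a ∉ S) (hT : T ⊆ S) (c c' x : V → Fin q) :
    mix (insert a S) T c c' x = mix S T c c' (Function.update x a (c' a)) := by
  funext v
  unfold mix
  by_cases h1 : v ∈ T
  · simp [h1]
  · by_cases h2 : v = a
    · subst h2
      simp [h1, ha]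
    · simp [h1, h2]

lemma mix_ins_r {S T : Finset V} {a : V} (ha : a ∉ S) (hT : T ⊆ S) (c c' x : V → Fin q) :
    mix (insert a S) (insert a T) c c' x = mix S T c c' (Function.update x a (c a)) := by
  funext v
  unfold mix
  by_cases h2 : v = a
  · subst h2
    have h1 : v ∉ T := fun h => ha (hT h)
    simp [h1, ha]
  · by_cases h1 : v ∈ T
    · simp [h1]
    · simp [h1, h2]

lemma Dl_insert {S : Finset V} {a : V} (ha : a ∉ S) (c c' : V → Fin q) (f : (V → Fin q) → ℝ)
    (x : V → Fin q) : Dl (insert a S) c c' f x =
      Dl S c c' f (Function.update x a (c a)) - Dl S c c' f (Function.update x a (c' a)) := by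
  unfold Dl
  rw [Finset.sum_powerset_insert ha]
  have h1 : ∑ T ∈ S.powerset, (-1 : ℝ) ^ ((insert a S) \ T).card * f (mix (insert a S) T c c' x) =
      - ∑ T ∈ S.powerset, (-1 : ℝ) ^ (S \ T).card * f (mix S T c c' (Function.update x a (c' a))) := by
    rw [← Finset.sum_neg_distrib]
    apply Finset.sum_congr rfl
    intro T hT
    rw [Finset.mem_powerset] at hT
    have haT : a ∉ T := fun h => ha (hT h)
    rw [mix_ins_l ha hT, Finset.insert_sdiff_of_notMem _ haT, Finset.card_insert_of_notMem
      (fun h => ha (Finset.mem_sdiff.mp h).1), pow_succ]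
    ring
  have h2 : ∑ T ∈ S.powerset, (-1 : ℝ) ^ ((insert a S) \ (insert a T)).card *
        f (mix (insert a S) (insert a T) c c' x) =
      ∑ T ∈ S.powerset, (-1 : ℝ) ^ (S \ T).card * f (mix S T c c' (Function.update x a (c a))) := by
    apply Finset.sum_congr rfl
    intro T hT
    rw [Finset.mem_powerset] at hT
    have e : (insert a S) \ (insert a T) = S \ T := by
      ext v
      simp only [Finset.mem_sdiff, Finset.mem_insert]
      constructor
      · rintro ⟨h1 | h1, h2⟩
        · exact absurd (Or.inl h1) h2
        · exact ⟨h1, fun h => h2 (Or.inr h)⟩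
      · rintro ⟨h1, h2⟩
        refine ⟨Or.inr h1, ?_⟩
        rintro (h | h)
        · exact ha (h ▸ h1)
        · exact h2 h
    rw [mix_ins_r ha hT, e]
  rw [h1, h2]
  ring

lemma Dl_update {S : Finset V} {a : V} (ha : a ∈ S) (c c' : V → Fin q) (f : (V → Fin q) → ℝ)
    (x : V → Fin q) (d : Fin q) : Dl S c c' f (Function.update x a d) = Dl S c c' f x := by
  unfold Dl
  apply Finset.sum_congr rfl
  intro T _
  have e : mix S T c c' (Function.update x a d) = mix S T c c' x := by
    funext v
    unfold mix
    by_cases h2 : v = a
    · subst h2
      simp [ha]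
    · simp [h2]
  rw [e]

lemma Dl_congr {S : Finset V} {c c' d d' : V → Fin q} (h : ∀ a ∈ S, d a = c a ∧ d' a = c' a)
    (f : (V → Fin q) → ℝ) (x : V → Fin q) : Dl S d d' f x = Dl S c c' f x := by
  unfold Dl
  apply Finset.sum_congr rfl
  intro T hT
  rw [Finset.mem_powerset] at hT
  have e : mix S T d d' x = mix S T c c' x := by
    funext v
    unfold mix
    by_cases h1 : v ∈ T
    · simp [h1, (h v (hT h1)).1]
    · by_cases h2 : v ∈ S
      · simp [h1, h2, (h v h2).2]
      · simp [h1, h2]
  rw [e]

/-- a function which does not depend on a coordinate of `S` has no mixed difference -/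
lemma Dl_indep {S : Finset V} {a : V} (ha : a ∈ S) (c c' : V → Fin q) (g : (V → Fin q) → ℝ)
    (hg : ∀ y d, g (Function.update y a d) = g y) (x : V → Fin q) : Dl S c c' g x = 0 := by
  have hS : S = insert a (S.erase a) := (Finset.insert_erase ha).symm
  rw [hS, Dl_insert (Finset.notMem_erase a S)]
  have key : ∀ d, Dl (S.erase a) c c' g (Function.update x a d) = Dl (S.erase a) c c' g x := by
    intro d
    unfold Dl
    apply Finset.sum_congr rfl
    intro T hT
    rw [Finset.mem_powerset] at hT
    have e : mix (S.erase a) T c c' (Function.update x a d) =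
        Function.update (mix (S.erase a) T c c' x) a d := by
      funext v
      unfold mix
      by_cases h2 : v = a
      · subst h2
        have h1 : v ∉ T := fun h => Finset.notMem_erase v S (hT h)
        simp [h1]
      · simp [h2]
    rw [e, hg]
  rw [key, key, sub_self]

/-- a move away from `S` commutes with the mixed difference -/
lemma Dl_comm {S : Finset V} {v : V} (hv : v ∉ S) (c c' : V → Fin q) (f : (V → Fin q) → ℝ)
    (F : (V → Fin q) → Fin q) (x : V → Fin q)
    (hF : ∀ T, T ⊆ S → F (mix S T c c' x) = F x) :
    Dl S c c' (fun y => f (Function.update y v (F y))) x =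
      Dl S c c' f (Function.update x v (F x)) := by
  unfold Dl
  apply Finset.sum_congr rfl
  intro T hT
  rw [Finset.mem_powerset] at hT
  have e : Function.update (mix S T c c' x) v (F (mix S T c c' x)) =
      mix S T c c' (Function.update x v (F x)) := by
    rw [hF T hT]
    funext u
    unfold mix
    by_cases h2 : u = v
    · subst h2
      have h1 : u ∉ T := fun h => hv (hT h)
      simp [h1, hv]
    · simp [h2]
  simp only [e]

end basics

theorem c0 : S_C0 := by
  intro V _ _ q S c c' f x
  refine ⟨fun a ha => Dl_insert ha c c' f x, fun a ha d => Dl_update ha c c' f x d,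
    fun d d' h => Dl_congr h f x, ?_, ?_, ?_⟩
  · intro B hB
    unfold Dl
    calc |∑ T ∈ S.powerset, (-1 : ℝ) ^ (S \ T).card * f (mix S T c c' x)|
        ≤ ∑ T ∈ S.powerset, |(-1 : ℝ) ^ (S \ T).card * f (mix S T c c' x)| :=
          Finset.abs_sum_le_sum_abs _ _
      _ ≤ ∑ _T ∈ S.powerset, B := by
          apply Finset.sum_le_sum
          intro T _
          rw [abs_mul, abs_pow, abs_neg, abs_one, one_pow, one_mul]
          exact hB _
      _ = 2 ^ S.card * B := by
          rw [Finset.sum_const, Finset.card_powerset, nsmul_eq_mul]
          push_cast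
          ring
  · unfold osc
    exact le_ciSup (f := fun p : (V → Fin q) × (V → Fin q) => |Dl S p.1 p.2 f x|)
      (Set.finite_range _).bddAbove (c, c')
  · unfold osc
    exact Real.iSup_nonneg fun p => abs_nonneg _

section C1

variable {V : Type} [DecidableEq V] {q : ℕ}

/-- the case of a copy from a site of `S` -/
lemma copy_in {S : Finset V} {a v : V} (ha : a ∈ S) (hv : v ∉ S) (c c' : V → Fin q)
    (f : (V → Fin q) → ℝ) (x : V → Fin q) :
    Dl S c c' (fun y => f (act (Sum.inr (v, a)) y)) x =
      Dl S c c' f (act (Sum.inr (v, a)) x) +
      (Dl (insert v (S.erase a)) (Function.update c v (c a)) (Function.update c' v (c' a)) f x +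
          Dl (insert v S) (Function.update c v (c a))
            (Function.update (Function.update c' a (x a)) v (x a)) f x -
          Dl (insert v S) (Function.update (Function.update c a (c' a)) v (c' a))
            (Function.update (Function.update c' a (x a)) v (x a)) f x) := by
  have hav : a ≠ v := fun h => hv (h ▸ ha)
  have hva : v ≠ a := fun h => hav h.symm
  set S' := S.erase a with hS'
  have haS' : a ∉ S' := Finset.notMem_erase a S
  have hvS' : v ∉ S' := fun h => hv (Finset.mem_of_mem_erase h)
  have hS : insert a S' = S := Finset.insert_erase ha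
  set φ : Fin q → Fin q → ℝ := fun d d' =>
    Dl S' c c' f (Function.update (Function.update x a d) v d') with hφ
  -- mixed differences over `S` for colours which agree with `c, c'` on `S'`
  have key : ∀ (C C' : V → Fin q) (g : (V → Fin q) → ℝ) (y : V → Fin q),
      (∀ b ∈ S', C b = c b ∧ C' b = c' b) →
      Dl S C C' g y = Dl S' c c' g (Function.update y a (C a)) -
        Dl S' c c' g (Function.update y a (C' a)) := by
    intro C C' g y hC
    rw [← hS, Dl_insert haS', Dl_congr hC, Dl_congr hC]
  have e1 : ∀ d, act (Sum.inr (v, a)) (Function.update x a d) =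
      Function.update (Function.update x a d) v d := by
    intro d
    simp [act]
  have h1 : Dl S c c' (fun y => f (act (Sum.inr (v, a)) y)) x = φ (c a) (c a) - φ (c' a) (c' a) := by
    rw [key c c' _ _ (fun b _ => ⟨rfl, rfl⟩)]
    have hcomm : ∀ y : V → Fin q, Dl S' c c' (fun y => f (act (Sum.inr (v, a)) y)) y =
        Dl S' c c' f (act (Sum.inr (v, a)) y) := by
      intro y
      refine Dl_comm hvS' c c' f (fun y => y a) y ?_
      intro T hT
      have haT : a ∉ T := fun h => haS' (hT h)
      simp [mix, haT, haS']
    rw [hcomm, hcomm, e1, e1]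
  have h2 : Dl S c c' f (act (Sum.inr (v, a)) x) = φ (c a) (x a) - φ (c' a) (x a) := by
    rw [key c c' _ _ (fun b _ => ⟨rfl, rfl⟩)]
    have e : ∀ d, Function.update (act (Sum.inr (v, a)) x) a d =
        Function.update (Function.update x a d) v (x a) := by
      intro d
      simp only [act]
      rw [Function.update_comm hav]
    rw [e, e]
  have hxa : ∀ d', φ (x a) d' = Dl S' c c' f (Function.update x v d') := by
    intro d'
    simp only [hφ, Function.update_eq_self]
  have h3 : Dl (insert v S') (Function.update c v (c a)) (Function.update c' v (c' a)) f x =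
      φ (x a) (c a) - φ (x a) (c' a) := by
    rw [Dl_insert hvS']
    have hC : ∀ b ∈ S', Function.update c v (c a) b = c b ∧
        Function.update c' v (c' a) b = c' b := by
      intro b hb
      have hbv : b ≠ v := fun h => hvS' (h ▸ hb)
      simp [hbv]
    rw [Dl_congr hC, Dl_congr hC, hxa, hxa]
    simp
  have h4 : ∀ (C : V → Fin q) (d : Fin q), (∀ b ∈ S', C b = c b) → C a = d → C v = d →
      Dl (insert v S) C (Function.update (Function.update c' a (x a)) v (x a)) f x =
      φ d d - φ (x a) d - φ d (x a) + φ (x a) (x a) := by
    intro C d hC hCa hCv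
    rw [Dl_insert hv]
    have hC2 : ∀ b ∈ S', C b = c b ∧
        Function.update (Function.update c' a (x a)) v (x a) b = c' b := by
      intro b hb
      have hbv : b ≠ v := fun h => hvS' (h ▸ hb)
      have hba : b ≠ a := fun h => haS' (h ▸ hb)
      simp [hbv, hba, hC b hb]
    rw [key _ _ _ _ hC2, key _ _ _ _ hC2]
    have ev : Function.update (Function.update c' a (x a)) v (x a) v = x a := by simp
    have ea : Function.update (Function.update c' a (x a)) v (x a) a = x a := by
      simp [hav]
    rw [ev, ea, hCa, hCv]
    have e : ∀ d1 d2, Function.update (Function.update x v d1) a d2 =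
        Function.update (Function.update x a d2) v d1 := fun d1 d2 =>
      Function.update_comm hva _ _ _
    rw [e, e, e, e]
    simp only [hφ]
    ring
  rw [h1, h2, h3, h4 (Function.update c v (c a)) (c a), h4 (Function.update
    (Function.update c a (c' a)) v (c' a)) (c' a)]
  · ring
  · intro b hb
    have hbv : b ≠ v := fun h => hvS' (h ▸ hb)
    have hba : b ≠ a := fun h => haS' (h ▸ hb)
    simp [hbv, hba]
  · simp [hav]
  · simp
  · intro b hb
    have hbv : b ≠ v := fun h => hvS' (h ▸ hb)
    simp [hbv]
  · simp [hav]
  · simp

end C1

theorem c1' : S_C1 := by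
  intro V _ _ G q θ Δ hSA S c c' f x
  have htot := (Pool.Agent.W788.NV.p_tot V G q θ (by have := hSA.q2; omega) hSA.t0.le hSA.t1
    hSA.d1).2 (fun v => if v ∈ S then 1 else 0)
  -- linearity
  have hlin : Dl S c c' (gf (mrate G q θ) (act (V := V) (q := q)) f) x =
      ∑ e, mrate G q θ e * (Dl S c c' (fun y => f (act e y)) x - Dl S c c' f x) := by
    unfold Dl gf
    simp_rw [Finset.mul_sum]
    rw [Finset.sum_comm]
    apply Finset.sum_congr rfl
    intro e _
    rw [← Finset.sum_sub_distrib, Finset.mul_sum]
    apply Finset.sum_congr rfl
    intro T _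
    ring
  set X : (V × Fin q) ⊕ (V × V) → ℝ := fun e => match e with
    | Sum.inl _ => 0
    | Sum.inr (v, a) => if v ∉ S ∧ a ∈ S then
        (Dl (insert v (S.erase a)) (Function.update c v (c a)) (Function.update c' v (c' a)) f x +
          Dl (insert v S) (Function.update c v (c a))
            (Function.update (Function.update c' a (x a)) v (x a)) f x -
          Dl (insert v S) (Function.update (Function.update c a (c' a)) v (c' a))
            (Function.update (Function.update c' a (x a)) v (x a)) f x) else 0 with hX
  have hpt : ∀ e, mrate G q θ e * (Dl S c c' (fun y => f (act e y)) x - Dl S c c' f x) =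
      mrate G q θ e * (Dl S c c' f (act e x) - Dl S c c' f x) -
      (mrate G q θ e * (if site e ∈ S then 1 else 0)) * Dl S c c' f x + mrate G q θ e * X e := by
    intro e
    rcases e with ⟨v, b⟩ | ⟨v, a⟩
    · by_cases hv : v ∈ S
      · have h0 : Dl S c c' (fun y => f (act (Sum.inl (v, b)) y)) x = 0 := by
          apply Dl_indep hv
          intro y d
          simp [act]
        have h1 : Dl S c c' f (act (Sum.inl (v, b)) x) = Dl S c c' f x := Dl_update hv _ _ _ _ _
        have h2 : (if site (V := V) (q := q) (Sum.inl (v, b)) ∈ S then (1 : ℝ) else 0) = 1 := by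
          simp [site, hv]
        rw [h0, h1, h2]
        simp only [hX]
        ring
      · have h0 : Dl S c c' (fun y => f (act (Sum.inl (v, b)) y)) x =
            Dl S c c' f (act (Sum.inl (v, b)) x) :=
          Dl_comm hv c c' f (fun _ => b) x (fun _ _ => rfl)
        have h2 : (if site (V := V) (q := q) (Sum.inl (v, b)) ∈ S then (1 : ℝ) else 0) = 0 := by
          simp [site, hv]
        rw [h0, h2]
        simp only [hX]
        ring
    · by_cases hv : v ∈ S
      · have h2 : (if site (V := V) (q := q) (Sum.inr (v, a)) ∈ S then (1 : ℝ) else 0) = 1 := by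
          simp [site, hv]
        have h3 : X (Sum.inr (v, a)) = 0 := by
          simp only [hX]
          rw [if_neg (fun h => h.1 hv)]
        by_cases hva : a = v
        · have hr : mrate G q θ (Sum.inr (v, a)) = 0 := by
            simp [mrate, hva]
          rw [hr]
          ring
        · have h0 : Dl S c c' (fun y => f (act (Sum.inr (v, a)) y)) x = 0 := by
            apply Dl_indep hv
            intro y d
            simp [act, hva]
          have h1 : Dl S c c' f (act (Sum.inr (v, a)) x) = Dl S c c' f x :=
            Dl_update hv _ _ _ _ _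
          rw [h0, h1, h2, h3]
          ring
      · have h2 : (if site (V := V) (q := q) (Sum.inr (v, a)) ∈ S then (1 : ℝ) else 0) = 0 := by
          simp [site, hv]
        by_cases ha : a ∈ S
        · have h3 := copy_in ha hv c c' f x
          have h4 : X (Sum.inr (v, a)) =
              (Dl (insert v (S.erase a)) (Function.update c v (c a)) (Function.update c' v (c' a))
                  f x +
                Dl (insert v S) (Function.update c v (c a))
                  (Function.update (Function.update c' a (x a)) v (x a)) f x -
                Dl (insert v S) (Function.update (Function.update c a (c' a)) v (c' a))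
                  (Function.update (Function.update c' a (x a)) v (x a)) f x) := by
            simp only [hX]
            rw [if_pos ⟨hv, ha⟩]
          rw [h2, h4, h3]
          ring
        · have h3 : X (Sum.inr (v, a)) = 0 := by
            simp only [hX]
            rw [if_neg (fun h => ha h.2)]
          have h0 : Dl S c c' (fun y => f (act (Sum.inr (v, a)) y)) x =
              Dl S c c' f (act (Sum.inr (v, a)) x) := by
            refine Dl_comm hv c c' f (fun y => y a) x ?_
            intro T hT
            have haT : a ∉ T := fun h => ha (hT h)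
            simp [mix, haT, ha]
          rw [h0, h2, h3]
          ring
  have hXs : ∑ e, mrate G q θ e * X e = ∑ a ∈ S, ∑ v ∈ Sᶜ, mrate G q θ (Sum.inr (v, a)) *
        (Dl (insert v (S.erase a)) (Function.update c v (c a)) (Function.update c' v (c' a)) f x +
          Dl (insert v S) (Function.update c v (c a))
            (Function.update (Function.update c' a (x a)) v (x a)) f x -
          Dl (insert v S) (Function.update (Function.update c a (c' a)) v (c' a))
            (Function.update (Function.update c' a (x a)) v (x a)) f x) := by
    rw [Fintype.sum_sum_type]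
    have h0 : ∑ p : V × Fin q, mrate G q θ (Sum.inl p) * X (Sum.inl p) = 0 := by
      apply Finset.sum_eq_zero
      intro p _
      simp only [hX]
      ring
    rw [h0, zero_add, Fintype.sum_prod_type_right]
    rw [← Finset.sum_subset (Finset.subset_univ S)]
    · apply Finset.sum_congr rfl
      intro a ha
      rw [← Finset.sum_subset (Finset.subset_univ Sᶜ)]
      · apply Finset.sum_congr rfl
        intro v hv
        rw [Finset.mem_compl] at hv
        simp only [hX]
        rw [if_pos ⟨hv, ha⟩]
      · intro v _ hv
        rw [Finset.mem_compl, not_not] at hv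
        simp only [hX]
        rw [if_neg (fun h => h.1 hv), mul_zero]
    · intro a _ ha
      apply Finset.sum_eq_zero
      intro v _
      simp only [hX]
      rw [if_neg (fun h => ha h.2), mul_zero]
  rw [hlin, Finset.sum_congr rfl (fun e _ => hpt e), Finset.sum_add_distrib,
    Finset.sum_sub_distrib, hXs, ← Finset.sum_mul, htot]
  have hcard : ∑ v, (if v ∈ S then (1 : ℝ) else 0) = S.card := by
    simp
  rw [hcard]
  rfl

theorem c1 (_h0 : S_C0) : S_C1 := c1'

end Pool.Agent.Y839.U
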